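import Mathlib

set_option autoImplicit false

open Set

namespace Pool.Agent.Lib.MP_c0afcf_an

/-- A compact metric graph: finitely many vertices and finitely many edges; the edge `e` is a
closed interval `[0, len e]` of positive length whose end `0` is glued to the vertex `src e` and
whose end `len e` is glued to the vertex `tgt e`. Loops and multiple edges are allowed. -/
structure MetricGraph where
  V : Type
  E : Type
  fintypeV : Fintype V
  fintypeE : Fintype E
  src : E → V
  tgt : E → V
  len : E → ℝ
  len_pos : ∀ e, 0 < len e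

attribute [instance] MetricGraph.fintypeV MetricGraph.fintypeE

namespace MetricGraph

variable (Γ : MetricGraph)

/-- The graph is connected: it has a vertex and any two vertices are joined by a path of edges. -/
def Connected : Prop :=
  Nonempty Γ.V ∧ ∀ v w : Γ.V, Relation.EqvGen (fun a b => ∃ e, Γ.src e = a ∧ Γ.tgt e = b) v w

/-- The points of the metric graph: the vertices, and the interior points of the edges. -/
inductive Point : Type where
  | vertex (v : Γ.V) : Point
  | inner (e : Γ.E) (x : ℝ) (hx : x ∈ Ioo 0 (Γ.len e)) : Point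

variable {Γ}

/-- The restriction of a function on the graph to the edge `e`, as a function of the coordinate
`x ∈ [0, len e]` (its values for other `x` play no role). -/
noncomputable def edgeFun (ψ : Γ.Point → ℝ) (e : Γ.E) (x : ℝ) : ℝ :=
  if hx : x ∈ Ioo 0 (Γ.len e) then ψ (Point.inner e x hx)
  else if x ≤ 0 then ψ (Point.vertex (Γ.src e)) else ψ (Point.vertex (Γ.tgt e))

/-- The derivative along the edge `e` (one-sided at the two ends of the edge). -/
noncomputable def edgeDeriv (ψ : Γ.Point → ℝ) (e : Γ.E) (x : ℝ) : ℝ :=
  derivWithin (edgeFun ψ e) (Icc 0 (Γ.len e)) x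

open Classical in
/-- `ψ` is a real eigenfunction of the standard Laplacian with eigenvalue `μ`: it is not
identically zero, it is `C²` on every closed edge (in particular continuous on the graph, since its
values at the ends of the edges are its values at the vertices), it satisfies `-ψ'' = μ ψ` on every
edge, and at every vertex the outward derivatives over all edge ends at that vertex sum to zero. -/
structure IsEigenfunction (μ : ℝ) (ψ : Γ.Point → ℝ) : Prop where
  ne_zero : ψ ≠ 0
  contDiffOn : ∀ e, ContDiffOn ℝ 2 (edgeFun ψ e) (Icc 0 (Γ.len e))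
  eqn : ∀ e, ∀ x ∈ Icc 0 (Γ.len e),
    -(derivWithin (edgeDeriv ψ e) (Icc 0 (Γ.len e)) x) = μ * edgeFun ψ e x
  kirchhoff : ∀ v : Γ.V,
    (∑ e, if Γ.src e = v then edgeDeriv ψ e 0 else 0) +
      (∑ e, if Γ.tgt e = v then -edgeDeriv ψ e (Γ.len e) else 0) = 0

variable (Γ)

/-- `μ` is the second eigenvalue `μ₂(Γ)` of the connected graph, i.e. the least positive
eigenvalue. -/
def IsSecondEigenvalue (μ : ℝ) : Prop :=
  IsLeast {ν : ℝ | 0 < ν ∧ ∃ φ : Γ.Point → ℝ, IsEigenfunction ν φ} μ

/-- The hot-spot set `M(Γ)`: the points at which some second eigenfunction attains its maximum or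
its minimum over the graph. -/
def hotSpots : Set Γ.Point :=
  {x | ∃ (μ : ℝ) (ψ : Γ.Point → ℝ), Γ.IsSecondEigenvalue μ ∧ IsEigenfunction μ ψ ∧
    ((∀ y, ψ y ≤ ψ x) ∨ (∀ y, ψ x ≤ ψ y))}

end MetricGraph

end Pool.Agent.Lib.MP_c0afcf_an
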