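import Pool.Agent.Lib.MP_c0afcf_an.Defs

set_option autoImplicit false

open Set

namespace Pool.Agent.Lib.MP_c0afcf_an

open MetricGraph

/-! ### Solutions of `-f'' = k² f` on an interval -/

/-- General solution of the equation on an edge. -/
lemma ode_sol {L k : ℝ} (hL : 0 < L) (hk : 0 < k) {f : ℝ → ℝ}
    (hf : ContDiffOn ℝ 2 f (Icc 0 L))
    (heq : ∀ x ∈ Icc 0 L, -(derivWithin (fun y => derivWithin f (Icc 0 L) y) (Icc 0 L) x)
      = k ^ 2 * f x) :
    ∀ x ∈ Icc 0 L,
      f x = f 0 * Real.cos (k * x) + derivWithin f (Icc 0 L) 0 / k * Real.sin (k * x) ∧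
      derivWithin f (Icc 0 L) x = -(k * f 0 * Real.sin (k * x)) +
        derivWithin f (Icc 0 L) 0 * Real.cos (k * x) := by
  have hu : UniqueDiffOn ℝ (Icc 0 L) := uniqueDiffOn_Icc hL
  have h1 : ∀ x ∈ Icc 0 L, HasDerivWithinAt f (derivWithin f (Icc 0 L) x) (Icc 0 L) x := by
    intro x hx
    exact ((hf.differentiableOn (by norm_num)) x hx).hasDerivWithinAt
  have h2 : ∀ x ∈ Icc 0 L, HasDerivWithinAt (fun y => derivWithin f (Icc 0 L) y)
      (-(k ^ 2 * f x)) (Icc 0 L) x := by
    intro x hx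
    have h3 : ContDiffOn ℝ 1 (fun y => derivWithin f (Icc 0 L) y) (Icc 0 L) :=
      hf.derivWithin hu (by norm_num)
    have h4 := ((h3.differentiableOn (by norm_num)) x hx).hasDerivWithinAt
    have h5 := heq x hx
    have h6 : derivWithin (fun y => derivWithin f (Icc 0 L) y) (Icc 0 L) x = -(k ^ 2 * f x) := by
      linarith
    rwa [h6] at h4
  have hcos : ∀ x : ℝ, HasDerivAt (fun y => Real.cos (k * y)) (-(Real.sin (k * x)) * k) x := by
    intro x
    have := ((hasDerivAt_id x).const_mul k).cos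
    simpa using this
  have hsin : ∀ x : ℝ, HasDerivAt (fun y => Real.sin (k * y)) (Real.cos (k * x) * k) x := by
    intro x
    have := ((hasDerivAt_id x).const_mul k).sin
    simpa using this
  -- two conserved quantities
  set D : ℝ → ℝ := fun y => derivWithin f (Icc 0 L) y with hD
  have hP : ∀ x ∈ Icc 0 L, HasDerivWithinAt
      (fun y => f y * Real.cos (k * y) - D y * Real.sin (k * y) / k) 0 (Icc 0 L) x := by
    intro x hx
    have a1 := ((h1 x hx).mul (hcos x).hasDerivWithinAt).sub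
      (((h2 x hx).mul (hsin x).hasDerivWithinAt).div_const k)
    refine a1.congr_deriv ?_
    have hk' : k ≠ 0 := hk.ne'
    simp only [hD]
    field_simp
    ring
  have hQ : ∀ x ∈ Icc 0 L, HasDerivWithinAt
      (fun y => f y * Real.sin (k * y) + D y * Real.cos (k * y) / k) 0 (Icc 0 L) x := by
    intro x hx
    have a1 := ((h1 x hx).mul (hsin x).hasDerivWithinAt).add
      (((h2 x hx).mul (hcos x).hasDerivWithinAt).div_const k)
    refine a1.congr_deriv ?_
    have hk' : k ≠ 0 := hk.ne'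
    simp only [hD]
    field_simp
    ring
  have hPc : ∀ x ∈ Icc 0 L, f x * Real.cos (k * x) - D x * Real.sin (k * x) / k = f 0 := by
    intro x hx
    have := constant_of_derivWithin_zero (f := fun y => f y * Real.cos (k * y) -
        D y * Real.sin (k * y) / k) (a := 0) (b := L)
      (fun y hy => (hP y hy).differentiableWithinAt)
      (fun y hy => (hP y (Ico_subset_Icc_self hy)).derivWithin (hu y (Ico_subset_Icc_self hy)))
      x hx
    simpa using this
  have hQc : ∀ x ∈ Icc 0 L, f x * Real.sin (k * x) + D x * Real.cos (k * x) / k = D 0 / k := by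
    intro x hx
    have := constant_of_derivWithin_zero (f := fun y => f y * Real.sin (k * y) +
        D y * Real.cos (k * y) / k) (a := 0) (b := L)
      (fun y hy => (hQ y hy).differentiableWithinAt)
      (fun y hy => (hQ y (Ico_subset_Icc_self hy)).derivWithin (hu y (Ico_subset_Icc_self hy)))
      x hx
    simpa using this
  intro x hx
  have e1 := hPc x hx
  have e2 := hQc x hx
  have e3 := Real.sin_sq_add_cos_sq (k * x)
  have hk' : k ≠ 0 := hk.ne'
  constructor
  · have : f x * (Real.sin (k * x) ^ 2 + Real.cos (k * x) ^ 2) =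
        f 0 * Real.cos (k * x) + D 0 / k * Real.sin (k * x) := by
      rw [← e1, ← e2]; ring
    rw [e3, mul_one] at this
    exact this
  · have : D x * (Real.sin (k * x) ^ 2 + Real.cos (k * x) ^ 2) =
        -(k * f 0 * Real.sin (k * x)) + (D 0 / k) * k * Real.cos (k * x) := by
      rw [← e1, ← e2]; field_simp; ring
    rw [e3, mul_one, div_mul_cancel₀ _ hk'] at this
    exact this

/-! ### The counterexample: a triangle with three short pendant edges -/

/-- The length of the three edges of the triangle. -/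
noncomputable def ell : ℝ := 2 * Real.arctan (3 / 2)

/-- The length of the three pendant edges. -/
noncomputable def eps : ℝ := Real.arctan (1 / 4)

lemma cos_half_pos : 0 < Real.cos (Real.arctan (3 / 2)) := Real.cos_arctan_pos _

lemma sin_half : Real.sin (Real.arctan (3 / 2)) = 3 / 2 * Real.cos (Real.arctan (3 / 2)) := by
  have h := Real.tan_arctan (3 / 2)
  rw [Real.tan_eq_sin_div_cos, div_eq_iff cos_half_pos.ne'] at h
  exact h

lemma cos_half_sq : Real.cos (Real.arctan (3 / 2)) ^ 2 = 4 / 13 := by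
  rw [Real.cos_sq_arctan]; norm_num

lemma cos_eps_pos : 0 < Real.cos eps := Real.cos_arctan_pos _

lemma sin_eps : Real.sin eps = 1 / 4 * Real.cos eps := by
  have h := Real.tan_arctan (1 / 4)
  rw [Real.tan_eq_sin_div_cos, div_eq_iff (Real.cos_arctan_pos _).ne'] at h
  exact h

lemma cos_ell : Real.cos ell = -5 / 13 := by
  rw [ell, Real.cos_two_mul, cos_half_sq]; norm_num

lemma sin_ell : Real.sin ell = 12 / 13 := by
  rw [ell, Real.sin_two_mul, sin_half]
  have := cos_half_sq
  nlinarith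

lemma ell_pos : 0 < ell := by
  have : 0 < Real.arctan (3 / 2) := Real.arctan_pos.mpr (by norm_num)
  unfold ell; linarith

lemma ell_lt_pi : ell < Real.pi := by
  have := Real.arctan_lt_pi_div_two (3 / 2)
  unfold ell; linarith

lemma eps_pos : 0 < eps := Real.arctan_pos.mpr (by norm_num)

lemma eps_lt : eps < Real.pi / 2 := Real.arctan_lt_pi_div_two _

/-- The triangle with vertices `inl i`, with a pendant edge ending at `inr i` attached to each
vertex `inl i`, `i = 0, 1, 2`. -/
noncomputable def net : MetricGraph where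
  V := Fin 3 ⊕ Fin 3
  E := Fin 3 ⊕ Fin 3
  fintypeV := inferInstance
  fintypeE := inferInstance
  src := Sum.elim (fun i => Sum.inl i) (fun i => Sum.inl i)
  tgt := Sum.elim (fun i => Sum.inl (i + 1)) (fun i => Sum.inr i)
  len := Sum.elim (fun _ => ell) (fun _ => eps)
  len_pos := by
    rintro (i | i)
    · exact ell_pos
    · exact eps_pos

lemma net_connected : net.Connected := by
  refine ⟨⟨(Sum.inl 0 : Fin 3 ⊕ Fin 3)⟩, ?_⟩
  have step : ∀ i : Fin 3, Relation.EqvGen (fun a b => ∃ e, net.src e = a ∧ net.tgt e = b)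
      (Sum.inl i : Fin 3 ⊕ Fin 3) (Sum.inl (i + 1) : Fin 3 ⊕ Fin 3) := fun i =>
    Relation.EqvGen.rel _ _ ⟨(Sum.inl i : Fin 3 ⊕ Fin 3), rfl, rfl⟩
  have tip : ∀ i : Fin 3, Relation.EqvGen (fun a b => ∃ e, net.src e = a ∧ net.tgt e = b)
      (Sum.inl i : Fin 3 ⊕ Fin 3) (Sum.inr i : Fin 3 ⊕ Fin 3) := fun i =>
    Relation.EqvGen.rel _ _ ⟨(Sum.inr i : Fin 3 ⊕ Fin 3), rfl, rfl⟩
  have base : ∀ i : Fin 3, Relation.EqvGen (fun a b => ∃ e, net.src e = a ∧ net.tgt e = b)
      (Sum.inl 0 : Fin 3 ⊕ Fin 3) (Sum.inl i : Fin 3 ⊕ Fin 3) := by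
    intro i
    fin_cases i
    · exact Relation.EqvGen.refl _
    · exact step 0
    · exact Relation.EqvGen.trans _ _ _ (step 0) (step 1)
  have all : ∀ v : Fin 3 ⊕ Fin 3,
      Relation.EqvGen (fun a b => ∃ e, net.src e = a ∧ net.tgt e = b)
      (Sum.inl 0 : Fin 3 ⊕ Fin 3) v := by
    rintro (i | i)
    · exact base i
    · exact Relation.EqvGen.trans _ _ _ (base i) (tip i)
  intro v w
  exact Relation.EqvGen.trans _ _ _ (Relation.EqvGen.symm _ _ (all v)) (all w)

/-- The vertex of the triangle with index `i`. -/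
noncomputable def cyc (i : Fin 3) : net.Point := Point.vertex (Sum.inl i : Fin 3 ⊕ Fin 3)

/-- The outer end of the pendant edge with index `i`. -/
noncomputable def tipv (i : Fin 3) : net.Point := Point.vertex (Sum.inr i : Fin 3 ⊕ Fin 3)

/-- The edge of the triangle with index `i`. -/
def eC (i : Fin 3) : net.E := (Sum.inl i : Fin 3 ⊕ Fin 3)

/-- The pendant edge with index `i`. -/
def eP (i : Fin 3) : net.E := (Sum.inr i : Fin 3 ⊕ Fin 3)

lemma len_eC (i : Fin 3) : net.len (eC i) = ell := rfl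
lemma len_eP (i : Fin 3) : net.len (eP i) = eps := rfl

lemma edgeFun_eC_zero (ψ : net.Point → ℝ) (i : Fin 3) : edgeFun ψ (eC i) 0 = ψ (cyc i) := by
  unfold edgeFun
  rw [dif_neg (by simp), if_pos le_rfl]
  rfl

lemma edgeFun_eC_ell (ψ : net.Point → ℝ) (i : Fin 3) :
    edgeFun ψ (eC i) ell = ψ (cyc (i + 1)) := by
  unfold edgeFun
  rw [dif_neg (by rw [len_eC]; simp), if_neg (not_le.mpr ell_pos)]
  rfl

lemma edgeFun_eP_zero (ψ : net.Point → ℝ) (i : Fin 3) : edgeFun ψ (eP i) 0 = ψ (cyc i) := by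
  unfold edgeFun
  rw [dif_neg (by simp), if_pos le_rfl]
  rfl

lemma edgeFun_eP_eps (ψ : net.Point → ℝ) (i : Fin 3) :
    edgeFun ψ (eP i) eps = ψ (tipv i) := by
  unfold edgeFun
  rw [dif_neg (by rw [len_eP]; simp), if_neg (not_le.mpr eps_pos)]
  rfl

open Classical in
/-- The Kirchhoff condition of the graph `net` at the two kinds of vertices. -/
lemma kirchhoff_iff (ψ : net.Point → ℝ) :
    (∀ v : net.V, (∑ e, if net.src e = v then edgeDeriv ψ e 0 else 0) +
      (∑ e, if net.tgt e = v then -edgeDeriv ψ e (net.len e) else 0) = 0) ↔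
    (∀ i : Fin 3, edgeDeriv ψ (eC (i + 1)) 0 + edgeDeriv ψ (eP (i + 1)) 0
      - edgeDeriv ψ (eC i) ell = 0) ∧ (∀ i : Fin 3, edgeDeriv ψ (eP i) eps = 0) := by
  have split : ∀ f : net.E → ℝ, ∑ e, f e = ∑ i : Fin 3, f (eC i) + ∑ i : Fin 3, f (eP i) := by
    intro f
    exact Fintype.sum_sum_type (α₁ := Fin 3) (α₂ := Fin 3) f
  have a1 : ∀ i j : Fin 3, (net.src (eC i) = (Sum.inl j : Fin 3 ⊕ Fin 3)) ↔ i = j := fun i j =>
    Sum.inl.injEq i j ▸ Iff.rfl
  have a2 : ∀ i j : Fin 3, (net.src (eP i) = (Sum.inl j : Fin 3 ⊕ Fin 3)) ↔ i = j := fun i j =>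
    Sum.inl.injEq i j ▸ Iff.rfl
  have a3 : ∀ i j : Fin 3, (net.tgt (eC i) = (Sum.inl j : Fin 3 ⊕ Fin 3)) ↔ i = j - 1 := by
    intro i j
    rw [eq_sub_iff_add_eq]
    exact Sum.inl.injEq (i + 1) j ▸ Iff.rfl
  have a4 : ∀ i j : Fin 3, (net.tgt (eP i) = (Sum.inr j : Fin 3 ⊕ Fin 3)) ↔ i = j := fun i j =>
    Sum.inr.injEq i j ▸ Iff.rfl
  have b1 : ∀ i j : Fin 3, ¬ (net.src (eC i) = (Sum.inr j : Fin 3 ⊕ Fin 3)) := fun i j h => by
    cases (h : (Sum.inl i : Fin 3 ⊕ Fin 3) = Sum.inr j)
  have b2 : ∀ i j : Fin 3, ¬ (net.src (eP i) = (Sum.inr j : Fin 3 ⊕ Fin 3)) := fun i j h => by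
    cases (h : (Sum.inl i : Fin 3 ⊕ Fin 3) = Sum.inr j)
  have b3 : ∀ i j : Fin 3, ¬ (net.tgt (eC i) = (Sum.inr j : Fin 3 ⊕ Fin 3)) := fun i j h => by
    cases (h : (Sum.inl (i + 1) : Fin 3 ⊕ Fin 3) = Sum.inr j)
  have b4 : ∀ i j : Fin 3, ¬ (net.tgt (eP i) = (Sum.inl j : Fin 3 ⊕ Fin 3)) := fun i j h => by
    cases (h : (Sum.inr i : Fin 3 ⊕ Fin 3) = Sum.inl j)
  have k1 : ∀ j : Fin 3, (∑ e, if net.src e = (Sum.inl j : Fin 3 ⊕ Fin 3)
      then edgeDeriv ψ e 0 else 0) +
      (∑ e, if net.tgt e = (Sum.inl j : Fin 3 ⊕ Fin 3) then -edgeDeriv ψ e (net.len e) else 0) =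
      edgeDeriv ψ (eC j) 0 + edgeDeriv ψ (eP j) 0 - edgeDeriv ψ (eC (j - 1)) ell := by
    intro j
    rw [split, split]
    simp only [a1, a2, a3, b4, if_false, Finset.sum_const_zero, add_zero,
        Finset.sum_ite_eq', Finset.mem_univ, if_true, len_eC]
    ring
  have k2 : ∀ j : Fin 3, (∑ e, if net.src e = (Sum.inr j : Fin 3 ⊕ Fin 3)
      then edgeDeriv ψ e 0 else 0) +
      (∑ e, if net.tgt e = (Sum.inr j : Fin 3 ⊕ Fin 3) then -edgeDeriv ψ e (net.len e) else 0) =
      -edgeDeriv ψ (eP j) eps := by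
    intro j
    rw [split, split]
    simp only [b1, b2, b3, a4, if_false, Finset.sum_const_zero, add_zero, zero_add,
        Finset.sum_ite_eq', Finset.mem_univ, if_true, len_eP]
  constructor
  · intro h
    constructor
    · intro i
      have h1 := (k1 (i + 1)).symm.trans (h (Sum.inl (i + 1) : Fin 3 ⊕ Fin 3))
      rwa [add_sub_cancel_right] at h1
    · intro i
      have h1 := (k2 i).symm.trans (h (Sum.inr i : Fin 3 ⊕ Fin 3))
      linarith
  · rintro ⟨h1, h2⟩ v
    rcases v with (j | j)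
    · refine (k1 j).trans ?_
      have h3 := h1 (j - 1)
      rwa [sub_add_cancel] at h3
    · refine (k2 j).trans ?_
      rw [h2 j, neg_zero]

lemma edgeFun_inner (ψ : net.Point → ℝ) (e : net.E) (x : ℝ) (hx : x ∈ Ioo 0 (net.len e)) :
    edgeFun ψ e x = ψ (Point.inner e x hx) := by
  unfold edgeFun
  rw [dif_pos hx]

/-- The solution on a triangle edge. -/
lemma sol_eC {k : ℝ} (hk : 0 < k) {ψ : net.Point → ℝ} (h : IsEigenfunction (k ^ 2) ψ)
    (i : Fin 3) : ∀ x ∈ Icc 0 ell,
      edgeFun ψ (eC i) x = ψ (cyc i) * Real.cos (k * x)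
        + edgeDeriv ψ (eC i) 0 / k * Real.sin (k * x) ∧
      edgeDeriv ψ (eC i) x = -(k * ψ (cyc i) * Real.sin (k * x)) +
        edgeDeriv ψ (eC i) 0 * Real.cos (k * x) := by
  have := ode_sol (f := edgeFun ψ (eC i)) ell_pos hk (h.contDiffOn (eC i)) (h.eqn (eC i))
  rw [edgeFun_eC_zero] at this
  exact this

/-- The solution on a pendant edge. -/
lemma sol_eP {k : ℝ} (hk : 0 < k) {ψ : net.Point → ℝ} (h : IsEigenfunction (k ^ 2) ψ)
    (i : Fin 3) : ∀ x ∈ Icc 0 eps,
      edgeFun ψ (eP i) x = ψ (cyc i) * Real.cos (k * x)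
        + edgeDeriv ψ (eP i) 0 / k * Real.sin (k * x) ∧
      edgeDeriv ψ (eP i) x = -(k * ψ (cyc i) * Real.sin (k * x)) +
        edgeDeriv ψ (eP i) 0 * Real.cos (k * x) := by
  have := ode_sol (f := edgeFun ψ (eP i)) eps_pos hk (h.contDiffOn (eP i)) (h.eqn (eP i))
  rw [edgeFun_eP_zero] at this
  exact this

/-- The relation between the values at the three triangle vertices. -/
lemma relation {k : ℝ} (hk : 0 < k) {ψ : net.Point → ℝ} (h : IsEigenfunction (k ^ 2) ψ)
    (i : Fin 3) :
    Real.cos (k * eps) * (ψ (cyc (i + 1 + 1)) + ψ (cyc i)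
      - 2 * Real.cos (k * ell) * ψ (cyc (i + 1))) +
      Real.sin (k * eps) * Real.sin (k * ell) * ψ (cyc (i + 1)) = 0 := by
  obtain ⟨hK1, hK2⟩ := (kirchhoff_iff ψ).mp h.kirchhoff
  have hl : ell ∈ Icc (0 : ℝ) ell := ⟨ell_pos.le, le_rfl⟩
  have he : eps ∈ Icc (0 : ℝ) eps := ⟨eps_pos.le, le_rfl⟩
  have e1 := (sol_eC hk h (i + 1) ell hl).1
  have e2 := (sol_eC hk h i ell hl).1
  have e3 := (sol_eC hk h i ell hl).2
  have e4 := (sol_eP hk h (i + 1) eps he).2
  have e5 := hK1 i
  rw [hK2 (i + 1)] at e4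
  rw [edgeFun_eC_ell] at e1 e2
  have hsc := Real.sin_sq_add_cos_sq (k * ell)
  have hk' : k ≠ 0 := hk.ne'
  have e1' : k * ψ (cyc (i + 1 + 1)) = k * ψ (cyc (i + 1)) * Real.cos (k * ell)
      + edgeDeriv ψ (eC (i + 1)) 0 * Real.sin (k * ell) := by
    rw [e1]; field_simp
  have e2' : k * ψ (cyc (i + 1)) = k * ψ (cyc i) * Real.cos (k * ell)
      + edgeDeriv ψ (eC i) 0 * Real.sin (k * ell) := by
    rw [e2]; field_simp
  have : k * (Real.cos (k * eps) * (ψ (cyc (i + 1 + 1)) + ψ (cyc i)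
      - 2 * Real.cos (k * ell) * ψ (cyc (i + 1))) +
      Real.sin (k * eps) * Real.sin (k * ell) * ψ (cyc (i + 1))) = 0 := by
    linear_combination Real.cos (k * eps) * e1' +
      Real.cos (k * eps) * Real.sin (k * ell) * e5 + Real.cos (k * eps) * Real.sin (k * ell) * e3
      - Real.cos (k * eps) * Real.cos (k * ell) * e2'
      + Real.sin (k * ell) * e4
      - k * Real.cos (k * eps) * ψ (cyc i) * hsc
  rcases mul_eq_zero.mp this with h0 | h0
  · exact absurd h0 hk'
  · exact h0

lemma sin_kl_pos {k : ℝ} (hk : 0 < k) (hk1 : k ≤ 1) : 0 < Real.sin (k * ell) := by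
  apply Real.sin_pos_of_pos_of_lt_pi (mul_pos hk ell_pos)
  calc k * ell ≤ 1 * ell := by
        apply mul_le_mul_of_nonneg_right hk1 ell_pos.le
    _ < Real.pi := by rw [one_mul]; exact ell_lt_pi

lemma keps_lt {k : ℝ} (hk1 : k ≤ 1) : k * eps < Real.pi / 2 := by
  calc k * eps ≤ 1 * eps := by
        apply mul_le_mul_of_nonneg_right hk1 eps_pos.le
    _ < Real.pi / 2 := by rw [one_mul]; exact eps_lt

lemma cos_ke_pos {k : ℝ} (hk : 0 < k) (hk1 : k ≤ 1) : 0 < Real.cos (k * eps) := by
  apply Real.cos_pos_of_mem_Ioo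
  constructor
  · have := mul_pos hk eps_pos
    have := Real.pi_pos
    linarith
  · exact keps_lt hk1

lemma sin_ke_pos {k : ℝ} (hk : 0 < k) (hk1 : k ≤ 1) : 0 < Real.sin (k * eps) := by
  apply Real.sin_pos_of_pos_of_lt_pi (mul_pos hk eps_pos)
  have := keps_lt hk1
  have := Real.pi_pos
  linarith

lemma cos_kl_lt {k : ℝ} (hk : 0 < k) (hk1 : k ≤ 1) : Real.cos (k * ell) < 1 := by
  have h1 := sin_kl_pos hk hk1
  have h2 := Real.sin_sq_add_cos_sq (k * ell)
  nlinarith

/-- The values at the triangle vertices sum to zero. -/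
lemma sum_zero {k : ℝ} (hk : 0 < k) (hk1 : k ≤ 1) {ψ : net.Point → ℝ}
    (h : IsEigenfunction (k ^ 2) ψ) : ψ (cyc 0) + ψ (cyc 1) + ψ (cyc 2) = 0 := by
  have r0 := relation hk h 0
  have r1 := relation hk h 1
  have r2 := relation hk h 2
  have z1 : (0 : Fin 3) + 1 = 1 := rfl
  have z2 : (1 : Fin 3) + 1 = 2 := rfl
  have z3 : (2 : Fin 3) + 1 = 0 := rfl
  rw [z1, z2] at r0
  rw [z2, z3] at r1
  rw [z3, z1] at r2
  have h3 : (2 * Real.cos (k * eps) * (1 - Real.cos (k * ell)) +
      Real.sin (k * eps) * Real.sin (k * ell)) *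
      (ψ (cyc 0) + ψ (cyc 1) + ψ (cyc 2)) = 0 := by
    linear_combination r0 + r1 + r2
  have h4 : 0 < 2 * Real.cos (k * eps) * (1 - Real.cos (k * ell)) +
      Real.sin (k * eps) * Real.sin (k * ell) := by
    have a1 := cos_ke_pos hk hk1
    have a2 := cos_kl_lt hk hk1
    have a3 := sin_ke_pos hk hk1
    have a4 := sin_kl_pos hk hk1
    have a5 : 0 < 1 - Real.cos (k * ell) := by linarith
    positivity
  rcases mul_eq_zero.mp h3 with h5 | h5
  · exact absurd h5 h4.ne'
  · exact h5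

/-- If the values at the triangle vertices vanish, so does the function. -/
lemma eq_zero_of_cyc {k : ℝ} (hk : 0 < k) (hk1 : k ≤ 1) {ψ : net.Point → ℝ}
    (h : IsEigenfunction (k ^ 2) ψ) (ha : ∀ i, ψ (cyc i) = 0) : ψ = 0 := by
  obtain ⟨hK1, hK2⟩ := (kirchhoff_iff ψ).mp h.kirchhoff
  have hl : ell ∈ Icc (0 : ℝ) ell := ⟨ell_pos.le, le_rfl⟩
  have he : eps ∈ Icc (0 : ℝ) eps := ⟨eps_pos.le, le_rfl⟩
  have dC : ∀ i, edgeDeriv ψ (eC i) 0 = 0 := by
    intro i
    have e1 := (sol_eC hk h i ell hl).1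
    rw [edgeFun_eC_ell, ha, ha, zero_mul, zero_add] at e1
    rcases mul_eq_zero.mp e1.symm with h1 | h1
    · rcases div_eq_zero_iff.mp h1 with h2 | h2
      · exact h2
      · exact absurd h2 hk.ne'
    · exact absurd h1 (sin_kl_pos hk hk1).ne'
  have dP : ∀ i, edgeDeriv ψ (eP i) 0 = 0 := by
    intro i
    have e1 := (sol_eP hk h i eps he).2
    rw [hK2, ha] at e1
    have e2 : edgeDeriv ψ (eP i) 0 * Real.cos (k * eps) = 0 := by linarith
    rcases mul_eq_zero.mp e2 with h1 | h1
    · exact h1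
    · exact absurd h1 (cos_ke_pos hk hk1).ne'
  funext y
  rcases y with (v | ⟨e, x, hx⟩)
  · rcases v with (i | i)
    · exact ha i
    · have e1 := (sol_eP hk h i eps he).1
      rw [edgeFun_eP_eps, ha, dP] at e1
      have : ψ (tipv i) = 0 := by rw [e1]; ring
      exact this
  · rcases e with (i | i)
    · have e1 := (sol_eC hk h i x (Ioo_subset_Icc_self hx)).1
      rw [edgeFun_inner ψ (eC i) x hx, ha, dC] at e1
      have : ψ (Point.inner (eC i) x hx) = 0 := by rw [e1]; ring
      exact this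
    · have e1 := (sol_eP hk h i x (Ioo_subset_Icc_self hx)).1
      rw [edgeFun_inner ψ (eP i) x hx, ha, dP] at e1
      have : ψ (Point.inner (eP i) x hx) = 0 := by rw [e1]; ring
      exact this

/-- There is no eigenvalue in `(0, 1)`. -/
lemma no_small {ν : ℝ} (hν : 0 < ν) (hν1 : ν < 1) {ψ : net.Point → ℝ}
    (h : IsEigenfunction ν ψ) : False := by
  set k := Real.sqrt ν with hkdef
  have hk : 0 < k := Real.sqrt_pos.mpr hν
  have hksq : k ^ 2 = ν := Real.sq_sqrt hν.le
  have hk1 : k < 1 := by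
    rw [← hksq] at hν1
    nlinarith
  rw [← hksq] at h
  have hz := sum_zero hk hk1.le h
  -- the crucial inequality
  have hc := cos_ke_pos hk hk1.le
  have hs := sin_ke_pos hk hk1.le
  have hpi := Real.pi_pos
  have hT : Real.sin (k * Real.arctan (3 / 2)) < 3 / 2 * Real.cos (k * Real.arctan (3 / 2)) := by
    have hA : 0 < Real.arctan (3 / 2) := Real.arctan_pos.mpr (by norm_num)
    have hA2 := Real.arctan_lt_pi_div_two (3 / 2)
    have hlt : k * Real.arctan (3 / 2) < Real.arctan (3 / 2) := by nlinarith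
    have hcp : 0 < Real.cos (k * Real.arctan (3 / 2)) := by
      apply Real.cos_pos_of_mem_Ioo
      constructor
      · have := mul_pos hk hA
        linarith
      · linarith
    have ht : Real.tan (k * Real.arctan (3 / 2)) < Real.tan (Real.arctan (3 / 2)) := by
      apply Real.tan_lt_tan_of_lt_of_lt_pi_div_two _ hA2 hlt
      have := mul_pos hk hA
      linarith
    rw [Real.tan_arctan, Real.tan_eq_sin_div_cos, div_lt_iff₀ hcp] at ht
    exact ht
  have hU : Real.sin (k * eps) < 1 / 4 * Real.cos (k * eps) := by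
    have hlt : k * eps < eps := by nlinarith [eps_pos]
    have ht : Real.tan (k * eps) < Real.tan eps := by
      apply Real.tan_lt_tan_of_lt_of_lt_pi_div_two _ eps_lt hlt
      have := mul_pos hk eps_pos
      linarith
    have h5 : Real.tan eps = 1 / 4 := Real.tan_arctan _
    rw [h5, Real.tan_eq_sin_div_cos, div_lt_iff₀ hc] at ht
    exact ht
  have hdbl : k * ell = 2 * (k * Real.arctan (3 / 2)) := by unfold ell; ring
  have hS : Real.sin (k * ell) = 2 * Real.sin (k * Real.arctan (3 / 2)) *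
      Real.cos (k * Real.arctan (3 / 2)) := by rw [hdbl, Real.sin_two_mul]
  have hC : Real.cos (k * ell) = 2 * Real.cos (k * Real.arctan (3 / 2)) ^ 2 - 1 := by
    rw [hdbl, Real.cos_two_mul]
  have hsin0 : 0 < Real.sin (k * Real.arctan (3 / 2)) := by
    have hA : 0 < Real.arctan (3 / 2) := Real.arctan_pos.mpr (by norm_num)
    have hA2 := Real.arctan_lt_pi_div_two (3 / 2)
    apply Real.sin_pos_of_pos_of_lt_pi (mul_pos hk hA)
    nlinarith
  have hkey : 0 < Real.cos (k * eps) * (1 + 2 * Real.cos (k * ell)) -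
      Real.sin (k * eps) * Real.sin (k * ell) := by
    rw [hS, hC]
    set u := Real.sin (k * Real.arctan (3 / 2)) with hu
    set w := Real.cos (k * Real.arctan (3 / 2)) with hw
    have huw : u ^ 2 + w ^ 2 = 1 := Real.sin_sq_add_cos_sq _
    have hwpos : 0 < w := by nlinarith
    -- 1 + 2 (2 w^2 - 1) = 3 w^2 - u^2
    have i1 : 1 + 2 * (2 * w ^ 2 - 1) = 3 * w ^ 2 - u ^ 2 := by nlinarith
    rw [i1]
    have i2 : u ^ 2 < 9 / 4 * w ^ 2 := by nlinarith
    have i3 : Real.sin (k * eps) * (2 * u * w) <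
        (1 / 4 * Real.cos (k * eps)) * (2 * (3 / 2 * w) * w) := by
      have j1 : 2 * u * w < 2 * (3 / 2 * w) * w := by nlinarith
      have j0 : 0 < 2 * u * w := by positivity
      exact mul_lt_mul hU j1.le j0 (by positivity)
    have i4 : Real.cos (k * eps) * (3 / 4 * w ^ 2) < Real.cos (k * eps) *
        (3 * w ^ 2 - u ^ 2) := by
      apply mul_lt_mul_of_pos_left _ hc
      linarith
    nlinarith
  have fin : ∀ i, ψ (cyc i) = 0 := by
    have r0 := relation hk h 0
    have r1 := relation hk h 1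
    have r2 := relation hk h 2
    have z1 : (0 : Fin 3) + 1 = 1 := rfl
    have z2 : (1 : Fin 3) + 1 = 2 := rfl
    have z3 : (2 : Fin 3) + 1 = 0 := rfl
    rw [z1, z2] at r0
    rw [z2, z3] at r1
    rw [z3, z1] at r2
    intro i
    have : (Real.cos (k * eps) * (1 + 2 * Real.cos (k * ell)) -
      Real.sin (k * eps) * Real.sin (k * ell)) * ψ (cyc i) = 0 := by
      fin_cases i
      · simp only [Fin.zero_eta]
        linear_combination -r2 + Real.cos (k * eps) * hz
      · simp only [Fin.mk_one]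
        linear_combination -r0 + Real.cos (k * eps) * hz
      · simp only [Fin.reduceFinMk]
        linear_combination -r1 + Real.cos (k * eps) * hz
    rcases mul_eq_zero.mp this with h5 | h5
    · exact absurd h5 hkey.ne'
    · exact h5
  exact h.ne_zero (eq_zero_of_cyc hk hk1.le h fin)

/-! ### The second eigenfunctions -/

/-- A function that agrees on `[0, L]` with `A cos x + B sin x`. -/
lemma trig_edge {L A B : ℝ} (hL : 0 < L) {f : ℝ → ℝ}
    (hf : ∀ x ∈ Icc 0 L, f x = A * Real.cos x + B * Real.sin x) :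
    ContDiffOn ℝ 2 f (Icc 0 L) ∧
    (∀ x ∈ Icc 0 L, derivWithin f (Icc 0 L) x = B * Real.cos x - A * Real.sin x) ∧
    (∀ x ∈ Icc 0 L, -(derivWithin (fun y => derivWithin f (Icc 0 L) y) (Icc 0 L) x)
      = 1 * f x) := by
  have hu : UniqueDiffOn ℝ (Icc 0 L) := uniqueDiffOn_Icc hL
  have g0 : ∀ x : ℝ, HasDerivAt (fun y => A * Real.cos y + B * Real.sin y)
      (B * Real.cos x - A * Real.sin x) x := by
    intro x
    have := ((Real.hasDerivAt_cos x).const_mul A).add ((Real.hasDerivAt_sin x).const_mul B)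
    refine this.congr_deriv ?_
    ring
  have g1 : ∀ x : ℝ, HasDerivAt (fun y => B * Real.cos y - A * Real.sin y)
      (-(A * Real.cos x + B * Real.sin x)) x := by
    intro x
    have := ((Real.hasDerivAt_cos x).const_mul B).sub ((Real.hasDerivAt_sin x).const_mul A)
    refine this.congr_deriv ?_
    ring
  have d1 : ∀ x ∈ Icc 0 L, derivWithin f (Icc 0 L) x = B * Real.cos x - A * Real.sin x := by
    intro x hx
    rw [derivWithin_congr hf (hf x hx)]
    exact (g0 x).hasDerivWithinAt.derivWithin (hu x hx)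
  refine ⟨?_, d1, ?_⟩
  · have : ContDiff ℝ 2 (fun y => A * Real.cos y + B * Real.sin y) := by fun_prop
    exact this.contDiffOn.congr hf
  · intro x hx
    rw [derivWithin_congr d1 (d1 x hx), (g1 x).hasDerivWithinAt.derivWithin (hu x hx), hf x hx]
    ring

/-- The eigenfunction with values `a 0, a 1, a 2` at the vertices of the triangle. -/
noncomputable def fn (a : Fin 3 → ℝ) : net.Point → ℝ
  | Point.vertex (Sum.inl i) => a i
  | Point.vertex (Sum.inr i) => a i * (Real.cos eps + Real.sin eps / 4)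
  | Point.inner (Sum.inl i) x _ =>
      a i * Real.cos x + (13 * a (i + 1) + 5 * a i) / 12 * Real.sin x
  | Point.inner (Sum.inr i) x _ => a i * (Real.cos x + Real.sin x / 4)

lemma fn_cyc (a : Fin 3 → ℝ) (i : Fin 3) : fn a (cyc i) = a i := rfl
lemma fn_tipv (a : Fin 3 → ℝ) (i : Fin 3) :
    fn a (tipv i) = a i * (Real.cos eps + Real.sin eps / 4) := rfl
lemma fn_innerC (a : Fin 3 → ℝ) (i : Fin 3) (x : ℝ) (hx : x ∈ Ioo 0 (net.len (eC i))) :
    fn a (Point.inner (eC i) x hx) =
      a i * Real.cos x + (13 * a (i + 1) + 5 * a i) / 12 * Real.sin x := rfl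
lemma fn_innerP (a : Fin 3 → ℝ) (i : Fin 3) (x : ℝ) (hx : x ∈ Ioo 0 (net.len (eP i))) :
    fn a (Point.inner (eP i) x hx) = a i * (Real.cos x + Real.sin x / 4) := rfl

lemma edgeFun_fn_eC (a : Fin 3 → ℝ) (i : Fin 3) : ∀ x ∈ Icc 0 ell,
    edgeFun (fn a) (eC i) x =
      a i * Real.cos x + (13 * a (i + 1) + 5 * a i) / 12 * Real.sin x := by
  intro x hx
  rcases hx.1.eq_or_lt with h0 | h0
  · rw [← h0, edgeFun_eC_zero, fn_cyc]; simp
  · rcases hx.2.eq_or_lt with h1 | h1
    · rw [h1, edgeFun_eC_ell, fn_cyc, cos_ell, sin_ell]; ring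
    · rw [edgeFun_inner _ _ _ (by rw [len_eC]; exact ⟨h0, h1⟩), fn_innerC]

lemma edgeFun_fn_eP (a : Fin 3 → ℝ) (i : Fin 3) : ∀ x ∈ Icc 0 eps,
    edgeFun (fn a) (eP i) x = a i * Real.cos x + a i / 4 * Real.sin x := by
  intro x hx
  rcases hx.1.eq_or_lt with h0 | h0
  · rw [← h0, edgeFun_eP_zero, fn_cyc]; simp
  · rcases hx.2.eq_or_lt with h1 | h1
    · rw [h1, edgeFun_eP_eps, fn_tipv]; ring
    · rw [edgeFun_inner _ _ _ (by rw [len_eP]; exact ⟨h0, h1⟩), fn_innerP]; ring

lemma fn_isEigenfunction (a : Fin 3 → ℝ) (hsum : a 0 + a 1 + a 2 = 0) (hne : a ≠ 0) :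
    IsEigenfunction (Γ := net) 1 (fn a) := by
  have tC := fun i => trig_edge ell_pos (edgeFun_fn_eC a i)
  have tP := fun i => trig_edge eps_pos (edgeFun_fn_eP a i)
  refine ⟨?_, ?_, ?_, ?_⟩
  · intro h
    apply hne
    funext i
    have := congrFun h (cyc i)
    rwa [fn_cyc] at this
  · rintro (i | i)
    · exact (tC i).1
    · exact (tP i).1
  · rintro (i | i)
    · exact (tC i).2.2
    · exact (tP i).2.2
  · rw [kirchhoff_iff]
    have hl : ell ∈ Icc (0 : ℝ) ell := ⟨ell_pos.le, le_rfl⟩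
    have hl0 : (0 : ℝ) ∈ Icc (0 : ℝ) ell := ⟨le_rfl, ell_pos.le⟩
    have he : eps ∈ Icc (0 : ℝ) eps := ⟨eps_pos.le, le_rfl⟩
    have he0 : (0 : ℝ) ∈ Icc (0 : ℝ) eps := ⟨le_rfl, eps_pos.le⟩
    constructor
    · intro i
      have e1 : edgeDeriv (fn a) (eC (i + 1)) 0 = _ := (tC (i + 1)).2.1 0 hl0
      have e2 : edgeDeriv (fn a) (eP (i + 1)) 0 = _ := (tP (i + 1)).2.1 0 he0
      have e3 : edgeDeriv (fn a) (eC i) ell = _ := (tC i).2.1 ell hl
      rw [e1, e2, e3, cos_ell, sin_ell, Real.cos_zero, Real.sin_zero]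
      have hs : a i + a (i + 1) + a (i + 1 + 1) = 0 := by
        fin_cases i
        · exact hsum
        · simp only [Fin.mk_one]
          have z2 : (1 : Fin 3) + 1 = 2 := rfl
          have z3 : (2 : Fin 3) + 1 = 0 := rfl
          rw [z2, z3]; linarith
        · simp only [Fin.reduceFinMk]
          have z3 : (2 : Fin 3) + 1 = 0 := rfl
          have z4 : (0 : Fin 3) + 1 = 1 := rfl
          rw [z3, z4]; linarith
      linear_combination 13 / 12 * hs
    · intro i
      have e1 : edgeDeriv (fn a) (eP i) eps = _ := (tP i).2.1 eps he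
      rw [e1, sin_eps]
      ring

/-- The second eigenvalue of the graph is `1`. -/
lemma net_second : net.IsSecondEigenvalue 1 := by
  constructor
  · refine ⟨one_pos, fn ![1, -1, 0], fn_isEigenfunction _ (by simp) ?_⟩
    intro h
    have := congrFun h 0
    simp at this
  · rintro ν ⟨hν, ψ, hψ⟩
    by_contra hlt
    exact no_small hν (not_le.mp hlt) hψ

/-- The values at the triangle vertices for which the maximum sits at `x₀` on edge `0`. -/
noncomputable def av (x₀ : ℝ) : Fin 3 → ℝ :=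
  ![Real.cos x₀, Real.cos (ell - x₀), -(Real.cos x₀ + Real.cos (ell - x₀))]

/-- The set of parameters used. -/
def U : Set ℝ :=
  {x | 0 < x ∧ x < ell ∧ 0 < Real.cos x ∧ Real.cos x < 12 / 13 ∧ 0 < Real.cos (ell - x) ∧
    Real.cos (ell - x) < 12 / 13}

lemma U_infinite : U.Infinite := by
  have hopen : IsOpen U := by
    unfold U
    apply IsOpen.inter (isOpen_lt continuous_const continuous_id)
    apply IsOpen.inter (isOpen_lt continuous_id continuous_const)
    apply IsOpen.inter (isOpen_lt continuous_const Real.continuous_cos)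
    apply IsOpen.inter (isOpen_lt Real.continuous_cos continuous_const)
    apply IsOpen.inter
    · exact isOpen_lt continuous_const (Real.continuous_cos.comp (continuous_const.sub
        continuous_id))
    · exact isOpen_lt (Real.continuous_cos.comp (continuous_const.sub continuous_id))
        continuous_const
  have hmem : Real.arctan (3 / 2) ∈ U := by
    have hA : 0 < Real.arctan (3 / 2) := Real.arctan_pos.mpr (by norm_num)
    have h1 := cos_half_pos
    have h2 := cos_half_sq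
    have h3 : Real.cos (Real.arctan (3 / 2)) < 12 / 13 := by nlinarith
    have h4 : ell - Real.arctan (3 / 2) = Real.arctan (3 / 2) := by unfold ell; ring
    refine ⟨hA, ?_, h1, h3, ?_, ?_⟩
    · unfold ell; linarith
    · rw [h4]; exact h1
    · rw [h4]; exact h3
  exact infinite_of_mem_nhds _ (hopen.mem_nhds hmem)

lemma av_sum (x₀ : ℝ) : av x₀ 0 + av x₀ 1 + av x₀ 2 = 0 := by
  simp [av]

lemma innerC_mem_hotSpots {x₀ : ℝ} (hx₀ : x₀ ∈ U) (hx : x₀ ∈ Ioo 0 (net.len (eC 0))) :
    Point.inner (eC 0) x₀ hx ∈ net.hotSpots := by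
  obtain ⟨h1, h2, h3, h4, h5, h6⟩ := hx₀
  have e0 : av x₀ 0 = Real.cos x₀ := rfl
  have e1 : av x₀ 1 = Real.cos (ell - x₀) := rfl
  have e2 : av x₀ 2 = -(Real.cos x₀ + Real.cos (ell - x₀)) := rfl
  have hne : av x₀ ≠ 0 := by
    intro h
    have := congrFun h 0
    rw [e0] at this
    simp only [Pi.zero_apply] at this
    linarith
  have z1 : (0 : Fin 3) + 1 = 1 := rfl
  have z2 : (1 : Fin 3) + 1 = 2 := rfl
  have z3 : (2 : Fin 3) + 1 = 0 := rfl
  -- on the edge `0` the function is `cos (x - x₀)`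
  have hedge0 : ∀ x : ℝ, av x₀ 0 * Real.cos x + (13 * av x₀ 1 + 5 * av x₀ 0) / 12 * Real.sin x
      = Real.cos (x - x₀) := by
    intro x
    rw [e0, e1, Real.cos_sub, Real.cos_sub, cos_ell, sin_ell]
    ring
  refine ⟨1, fn (av x₀), net_second, fn_isEigenfunction _ (av_sum x₀) hne, Or.inl ?_⟩
  have hval : fn (av x₀) (Point.inner (eC 0) x₀ hx) = 1 := by
    rw [fn_innerC, z1, hedge0, sub_self, Real.cos_zero]
  rw [hval]
  -- bound for the pendant edges
  have hpend : ∀ x : ℝ, Real.cos x + Real.sin x / 4 ≤ 13 / 12 := by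
    intro x
    have := Real.sin_sq_add_cos_sq x
    nlinarith [sq_nonneg (Real.cos x / 4 - Real.sin x), sq_nonneg (Real.cos x + Real.sin x / 4 - 1)]
  have hpend0 : ∀ x : ℝ, 0 ≤ x → x ≤ eps → 0 ≤ Real.cos x + Real.sin x / 4 := by
    intro x hx0 hx1
    have hpi := Real.pi_pos
    have hlt := eps_lt
    have c1 : 0 ≤ Real.cos x := Real.cos_nonneg_of_mem_Icc ⟨by linarith, by linarith⟩
    have c2 : 0 ≤ Real.sin x := Real.sin_nonneg_of_nonneg_of_le_pi hx0 (by linarith)
    positivity
  have hP : ∀ (i : Fin 3) (x : ℝ), 0 ≤ x → x ≤ eps →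
      av x₀ i * (Real.cos x + Real.sin x / 4) ≤ 1 := by
    intro i x hx0 hx1
    have q1 := hpend x
    have q2 := hpend0 x hx0 hx1
    fin_cases i
    · change av x₀ 0 * _ ≤ 1
      rw [e0]; nlinarith
    · change av x₀ 1 * _ ≤ 1
      rw [e1]; nlinarith
    · change av x₀ 2 * _ ≤ 1
      rw [e2]; nlinarith
  rintro (v | ⟨e, x, hxe⟩)
  · rcases v with (i | i)
    · change av x₀ i ≤ 1
      fin_cases i
      · change av x₀ 0 ≤ 1
        rw [e0]; linarith
      · change av x₀ 1 ≤ 1
        rw [e1]; linarith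
      · change av x₀ 2 ≤ 1
        rw [e2]; linarith
    · exact hP i eps eps_pos.le le_rfl
  · rcases e with (i | i)
    · have hx0 : 0 < x := hxe.1
      have hx1 : x < ell := hxe.2
      have hpi := ell_lt_pi
      have s1 : 0 < Real.sin x := Real.sin_pos_of_pos_of_lt_pi hx0 (by linarith)
      have s2 : 0 < Real.sin (ell - x) :=
        Real.sin_pos_of_pos_of_lt_pi (by linarith) (by linarith)
      change av x₀ i * Real.cos x + (13 * av x₀ (i + 1) + 5 * av x₀ i) / 12 * Real.sin x ≤ 1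
      fin_cases i
      · change av x₀ 0 * Real.cos x + (13 * av x₀ 1 + 5 * av x₀ 0) / 12 * Real.sin x ≤ 1
        rw [hedge0]
        exact Real.cos_le_one _
      · change av x₀ 1 * Real.cos x + (13 * av x₀ 2 + 5 * av x₀ 1) / 12 * Real.sin x ≤ 1
        rw [e1, e2]
        have c1 := Real.cos_le_one x
        nlinarith [mul_pos h3 s1, mul_pos h5 s1]
      · change av x₀ 2 * Real.cos x + (13 * av x₀ 0 + 5 * av x₀ 2) / 12 * Real.sin x ≤ 1
        rw [e0, e2]
        rw [Real.sin_sub, cos_ell, sin_ell] at s2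
        have c1 := Real.sin_le_one x
        nlinarith [mul_pos h3 s2, mul_pos h5 s2, mul_pos h3 s1]
    · exact hP i x hxe.1.le hxe.2.le

/-- An interior point of a pendant edge is never a hot spot. -/
lemma innerP_not_mem (hx : eps / 2 ∈ Ioo 0 (net.len (eP 0))) :
    Point.inner (eP 0) (eps / 2) hx ∉ net.hotSpots := by
  rintro ⟨μ, ψ, hμ, hψ, hext⟩
  have hμ1 : μ = 1 := hμ.unique net_second
  subst hμ1
  have hψ' : IsEigenfunction (1 ^ 2) ψ := by rwa [one_pow]
  have hsum := sum_zero one_pos le_rfl hψ'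
  obtain ⟨hK1, hK2⟩ := (kirchhoff_iff ψ).mp hψ.kirchhoff
  have he : eps ∈ Icc (0 : ℝ) eps := ⟨eps_pos.le, le_rfl⟩
  have he2 : eps / 2 ∈ Icc (0 : ℝ) eps := ⟨by linarith [eps_pos], by linarith [eps_pos]⟩
  have d0 : edgeDeriv ψ (eP 0) 0 = ψ (cyc 0) / 4 := by
    have e1 := (sol_eP one_pos hψ' 0 eps he).2
    simp only [one_mul] at e1
    rw [hK2, sin_eps] at e1
    have hc := cos_eps_pos
    have : (edgeDeriv ψ (eP 0) 0 - ψ (cyc 0) / 4) * Real.cos eps = 0 := by linarith
    rcases mul_eq_zero.mp this with h1 | h1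
    · linarith
    · exact absurd h1 hc.ne'
  have v1 : ψ (Point.inner (eP 0) (eps / 2) hx) =
      ψ (cyc 0) * (Real.cos (eps / 2) + Real.sin (eps / 2) / 4) := by
    have e1 := (sol_eP one_pos hψ' 0 (eps / 2) he2).1
    simp only [one_mul, div_one] at e1
    rw [edgeFun_inner ψ (eP 0) (eps / 2) hx, d0] at e1
    rw [e1]; ring
  have v2 : ψ (tipv 0) = ψ (cyc 0) * (Real.cos eps + Real.sin eps / 4) := by
    have e1 := (sol_eP one_pos hψ' 0 eps he).1
    simp only [one_mul, div_one] at e1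
    rw [edgeFun_eP_eps, d0] at e1
    rw [e1]; ring
  -- compare the three values along the pendant edge
  have hc2 : 0 < Real.cos (eps / 2) :=
    Real.cos_pos_of_mem_Ioo ⟨by linarith [eps_pos, Real.pi_pos], by linarith [eps_lt, eps_pos]⟩
  have hs2 : 0 < Real.sin (eps / 2) :=
    Real.sin_pos_of_pos_of_lt_pi (by linarith [eps_pos]) (by linarith [eps_lt, Real.pi_pos,
      eps_pos])
  have hce := cos_eps_pos
  have hse := sin_eps
  have hdc : Real.cos eps = 2 * Real.cos (eps / 2) ^ 2 - 1 := by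
    rw [← Real.cos_two_mul]; congr 1; ring
  have hds : Real.sin eps = 2 * Real.sin (eps / 2) * Real.cos (eps / 2) := by
    rw [← Real.sin_two_mul]; congr 1; ring
  have hsq := Real.sin_sq_add_cos_sq (eps / 2)
  have hsqe := Real.sin_sq_add_cos_sq eps
  -- values: 1 < m < t where m is the middle value, t the value at the tip
  set c := Real.cos (eps / 2) with hcdef
  set s := Real.sin (eps / 2) with hsdef
  -- sin eps * c - cos eps * s = s, i.e. sin (eps - eps/2)
  have r1 : Real.sin eps * c - Real.cos eps * s = s := by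
    rw [hds, hdc]
    have : 2 * s * c * c - (2 * c ^ 2 - 1) * s = s := by ring
    exact this
  have r2 : Real.cos eps * c + Real.sin eps * s = c := by
    rw [hds, hdc]
    have : (2 * c ^ 2 - 1) * c + 2 * s * c * s = c * (2 * (s ^ 2 + c ^ 2) - 1) := by ring
    rw [this, hsq]; ring
  have hs1 : s < 1 := by nlinarith
  have hc1 : c < 1 := by nlinarith
  -- middle value times cos eps equals c
  have m1 : (c + s / 4) * Real.cos eps = c := by
    have : (c + s / 4) * Real.cos eps = Real.cos eps * c + (1 / 4 * Real.cos eps) * s := by ring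
    rw [this, ← hse, r2]
  have t1 : (Real.cos eps + Real.sin eps / 4) * Real.cos eps = 1 := by
    have : (Real.cos eps + Real.sin eps / 4) * Real.cos eps =
      Real.cos eps ^ 2 + (1 / 4 * Real.cos eps) * Real.sin eps := by ring
    rw [this, ← hse]; nlinarith
  have hmt : c + s / 4 < Real.cos eps + Real.sin eps / 4 := by
    have : (c + s / 4) * Real.cos eps < (Real.cos eps + Real.sin eps / 4) * Real.cos eps := by
      rw [m1, t1]; exact hc1
    exact lt_of_mul_lt_mul_right this hce.le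
  have hm1 : 1 < c + s / 4 := by
    have : 1 * Real.cos eps < (c + s / 4) * Real.cos eps := by
      rw [m1, hdc, one_mul]
      nlinarith
    exact lt_of_mul_lt_mul_right this hce.le
  rcases lt_trichotomy (ψ (cyc 0)) 0 with hneg | hzero | hpos
  · rcases hext with hmax | hmin
    · have h1 := hmax (cyc 0)
      rw [v1] at h1
      have h2 := mul_lt_mul_of_neg_left hm1 hneg
      linarith
    · have h1 := hmin (tipv 0)
      rw [v1, v2] at h1
      have h2 := mul_lt_mul_of_neg_left hmt hneg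
      linarith
  · -- the function vanishes on this edge but changes sign
    rw [v1, hzero, zero_mul] at hext
    rw [hzero, zero_add] at hsum
    have h12 : ψ (cyc 1) ≠ 0 := by
      intro h1
      apply hψ.ne_zero
      apply eq_zero_of_cyc one_pos le_rfl hψ'
      intro i
      fin_cases i
      · exact hzero
      · exact h1
      · change ψ (cyc 2) = 0
        rw [h1, zero_add] at hsum
        exact hsum
    rcases hext with hmax | hmin
    · have a1 := hmax (cyc 1)
      have a2 := hmax (cyc 2)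
      exact h12 (by linarith)
    · have a1 := hmin (cyc 1)
      have a2 := hmin (cyc 2)
      exact h12 (by linarith)
  · rcases hext with hmax | hmin
    · have h1 := hmax (tipv 0)
      rw [v1, v2] at h1
      have h2 := mul_lt_mul_of_pos_left hmt hpos
      linarith
    · have h1 := hmin (cyc 0)
      rw [v1] at h1
      have h2 := mul_lt_mul_of_pos_left hm1 hpos
      linarith

/-- There is a compact connected metric graph whose hot-spot set `M(Γ)` is infinite but is not the
whole graph. -/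
theorem exists_infinite_proper : ∃ Γ : MetricGraph, Γ.Connected ∧ Γ.hotSpots.Infinite ∧ Γ.hotSpots ≠ Set.univ := by
  refine ⟨net, net_connected, ?_, ?_⟩
  · have hinf : Infinite U := U_infinite.to_subtype
    have hmem : ∀ x : U, (x : ℝ) ∈ Ioo 0 (net.len (eC 0)) := fun x => ⟨x.2.1, x.2.2.1⟩
    let g : U → net.Point := fun x => Point.inner (eC 0) (x : ℝ) (hmem x)
    have hg : Function.Injective g := by
      intro x y hxy
      have h1 := (Point.inner.injEq (Γ := net) (eC 0) (x : ℝ) (hmem x) (eC 0) (y : ℝ) (hmem y)).mp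
        hxy
      exact Subtype.ext h1.2
    have hg2 : ∀ x, g x ∈ net.hotSpots := fun x => innerC_mem_hotSpots x.2 (hmem x)
    exact Set.infinite_of_injective_forall_mem hg hg2
  · intro h
    have hx : eps / 2 ∈ Ioo 0 (net.len (eP 0)) := by
      rw [len_eP]
      exact ⟨by linarith [eps_pos], by linarith [eps_pos]⟩
    have := innerP_not_mem hx
    rw [h] at this
    exact this (Set.mem_univ _)

end Pool.Agent.Lib.MP_c0afcf_an
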